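import Pool.Agent.T9h96.Tri

/-!
# MP_b83ca4_nt, Q2: uniformly discrete unions of rotated triangular lattices are no dense forests

The plane is the complex plane; the rotation by `θ` is the multiplication by `e^(iθ)`.

If `r_{θ_i}(Λ)` and `r_{θ_j}(Λ)` have no common direction then their sum is dense in the plane, so
that the union of translates of the two is not uniformly discrete.  So if the union is uniformly
discrete then the rotated lattices have pairwise common directions; as `Λ` is a ring stable under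
complex conjugation they then have one direction `w` in common, and a line parallel to `w` stays
away from the union.
-/

set_option autoImplicit false

namespace Pool.Agent.Results.MP_b83ca4_nt.NoUniformlyDiscrete

open Complex Pool.Agent.T9h96.Forest

/-- The lattice `Λ` spanned by `(1, 0)` and `(1/2, √3/2)`. -/
def Lam : Set ℂ := {z | ∃ a b : ℤ, z = a + b * (1 / 2 + (Real.sqrt 3 / 2 : ℝ) * I)}

/-- The union of the `k` copies `r_{θ_i}(Λ) + x_i`. -/
noncomputable def TBG (k : ℕ) (x : Fin k → ℂ) (θ : Fin k → AddCircle (2 * Real.pi)) : Set ℂ :=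
  ⋃ i, (fun z => ((θ i).toCircle : ℂ) * z + x i) '' Lam

/-- For every `ε > 0` there is `V > 0` such that every segment of length `V` has some point of `D`
at distance less than `ε` from it. -/
def DenseForest (D : Set ℂ) : Prop :=
  ∀ ε : ℝ, 0 < ε → ∃ V : ℝ, 0 < V ∧
    ∀ a b : ℂ, dist a b = V → ∃ p ∈ D, ∃ q ∈ segment ℝ a b, dist p q < ε

/-- There is `r > 0` such that distinct points of `D` have distance at least `r`. -/
def UniformlyDiscrete (D : Set ℂ) : Prop :=
  ∃ r : ℝ, 0 < r ∧ ∀ p ∈ D, ∀ q ∈ D, p ≠ q → r ≤ dist p q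

/-- **Q2, for any number of copies.**  No union of rotated and translated copies
`r_{θ_i}(Λ) + x_i`, `1 ≤ i ≤ k`, is both uniformly discrete and a dense forest.  In particular
this holds for `k = 3`. -/
theorem result (k : ℕ) (x : Fin k → ℂ) (θ : Fin k → AddCircle (2 * Real.pi)) :
    ¬ (UniformlyDiscrete (TBG k x θ) ∧ DenseForest (TBG k x θ)) := by
  rintro ⟨⟨r, hr, hu⟩, h⟩
  have hc : ∀ i, ‖((θ i).toCircle : ℂ)‖ = 1 := fun i => Circle.norm_coe _
  rcases Nat.eq_zero_or_pos k with hk | hk
  · subst hk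
    obtain ⟨V, hV, h1⟩ := h 1 one_pos
    obtain ⟨p, hp, -⟩ := h1 0 V (by
      rw [dist_zero_left, Complex.norm_real, Real.norm_eq_abs, abs_of_pos hV])
    obtain ⟨i, -⟩ := Set.mem_iUnion.1 hp
    exact i.elim0
  · obtain ⟨ε, hε, hno⟩ := not_hits (fun i => ((θ i).toCircle : ℂ)) x hc ⟨0, hk⟩ (fun i =>
      comm_of_uniformly_discrete (fun i => ((θ i).toCircle : ℂ)) x hc r hr hu i ⟨0, hk⟩)
    obtain ⟨V, hV, h1⟩ := h ε hε
    obtain ⟨a, b, hab, h2⟩ := hno V hV.le
    obtain ⟨p, hp, q, hq, h3⟩ := h1 a b hab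
    exact absurd (h2 p hp q hq) (not_le.2 h3)

end Pool.Agent.Results.MP_b83ca4_nt.NoUniformlyDiscrete
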