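import Pool.Agent.T9h96.Tri

/-!
# MP_b83ca4_nt, Q1: two rotated copies of the triangular lattice suffice for a dense forest

The plane is the complex plane; the rotation by `θ` is the multiplication by `e^(iθ)`.

If two of the rotated lattices have no common direction then their union is a dense forest: if
longer and longer segments stayed away from it, then after translations (modulo the two lattices
separately) and a passage to a limit a whole line would stay away from a translate of either of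
the two lattices, so that its direction would be a direction of both.  If all rotated lattices
have pairwise common directions then they have one direction `w` in common (the lattice is a ring
which is stable under complex conjugation), the union is contained in finitely many families of
equidistant lines parallel to `w`, and some line parallel to `w` stays away from it.
-/

set_option autoImplicit false

namespace Pool.Agent.Results.MP_b83ca4_nt.SmallestK

open Complex Pool.Agent.T9h96.Forest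

/-- The lattice `Λ` spanned by `(1, 0)` and `(1/2, √3/2)`. -/
def Lam : Set ℂ := {z | ∃ a b : ℤ, z = a + b * (1 / 2 + (Real.sqrt 3 / 2 : ℝ) * I)}

/-- The union of the `k` copies `r_{θ_i}(Λ) + x_i`. -/
noncomputable def TBG (k : ℕ) (x : Fin k → ℂ) (θ : Fin k → AddCircle (2 * Real.pi)) : Set ℂ :=
  ⋃ i, (fun z => ((θ i).toCircle : ℂ) * z + x i) '' Lam

/-- For every `ε > 0` there is `V > 0` such that every segment of length `V` has some point of `D`
at distance less than `ε` from it. -/
def DenseForest (D : Set ℂ) : Prop :=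
  ∀ ε : ℝ, 0 < ε → ∃ V : ℝ, 0 < V ∧
    ∀ a b : ℂ, dist a b = V → ∃ p ∈ D, ∃ q ∈ segment ℝ a b, dist p q < ε

lemma characterisation (k : ℕ) (x : Fin k → ℂ) (θ : Fin k → AddCircle (2 * Real.pi)) :
    DenseForest (TBG k x θ) ↔ ∃ i j, ∀ u ∈ Lam, ∀ v ∈ Lam, u ≠ 0 → v ≠ 0 →
      ∀ t : ℝ, ((θ i).toCircle : ℂ) * u ≠ t * (((θ j).toCircle : ℂ) * v) := by
  have hc : ∀ i, ‖((θ i).toCircle : ℂ)‖ = 1 := fun i => Circle.norm_coe _
  constructor
  · intro h
    by_contra hcon
    push Not at hcon
    rcases Nat.eq_zero_or_pos k with hk | hk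
    · subst hk
      obtain ⟨V, hV, h1⟩ := h 1 one_pos
      obtain ⟨p, hp, -⟩ := h1 0 V (by
        rw [dist_zero_left, Complex.norm_real, Real.norm_eq_abs, abs_of_pos hV])
      obtain ⟨i, -⟩ := Set.mem_iUnion.1 hp
      exact i.elim0
    · obtain ⟨ε, hε, hno⟩ := not_hits (fun i => ((θ i).toCircle : ℂ)) x hc ⟨0, hk⟩ (fun i => by
        obtain ⟨u, hu, v, hv, hu0, hv0, t, ht⟩ := hcon i ⟨0, hk⟩
        exact ⟨u, hu, v, hv, hu0, hv0, t, ht⟩)
      obtain ⟨V, hV, h1⟩ := h ε hε
      obtain ⟨a, b, hab, h2⟩ := hno V hV.le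
      obtain ⟨p, hp, q, hq, h3⟩ := h1 a b hab
      exact absurd (h2 p hp q hq) (not_le.2 h3)
  · rintro ⟨i, j, h⟩ ε hε
    refine hits_of_not_comm (fun i => ((θ i).toCircle : ℂ)) x hc i j ?_ ε hε
    rintro ⟨u, hu, v, hv, hu0, hv0, t, ht⟩
    exact h u hu v hv hu0 hv0 t ht

lemma no_common_quarter (u v : ℂ) (hu : u ∈ Lam) (hv : v ∈ Lam) (hu0 : u ≠ 0) (hv0 : v ≠ 0)
    (t : ℝ) : (1 : ℂ) * u ≠ t * ((Complex.exp ((Real.pi / 4 : ℝ) * I)) * v) := by
  intro h
  obtain ⟨a, b, hab⟩ : ∃ a b : ℤ, u * (starRingEnd ℂ) v = a + b * om := lam_mul hu (lam_conj hv)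
  have h1 : u * (starRingEnd ℂ) v = (t * Complex.normSq v * (Real.sqrt 2 / 2) : ℝ) * (1 + I) := by
    have h2 : Complex.exp ((Real.pi / 4 : ℝ) * I) = (Real.sqrt 2 / 2 : ℝ) * (1 + I) := by
      rw [Complex.exp_mul_I, ← Complex.ofReal_cos, ← Complex.ofReal_sin, Real.cos_pi_div_four,
        Real.sin_pi_div_four]
      ring
    rw [h2, one_mul] at h
    have h3 := Complex.mul_conj v
    rw [h]
    push_cast
    linear_combination (t * (Real.sqrt 2 / 2) * (1 + I) : ℂ) * h3
  have h4 : (u * (starRingEnd ℂ) v).re = (u * (starRingEnd ℂ) v).im := by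
    rw [h1, Complex.re_ofReal_mul, Complex.im_ofReal_mul]
    simp
  rw [hab] at h4
  have h5 : (a : ℝ) + b * (1 / 2) = b * (Real.sqrt 3 / 2) := by
    have e1 : ((a : ℂ) + b * om).re = (a : ℝ) + b * (1 / 2) := by simp [om_re, om_im]
    have e2 : ((a : ℂ) + b * om).im = (b : ℝ) * (Real.sqrt 3 / 2) := by simp [om_re, om_im]
    rw [← e1, h4, e2]
  have hb : b ≠ 0 := by
    intro hb
    have ha : a = 0 := by
      rw [hb] at h5; simp at h5; exact h5
    rw [ha, hb] at hab
    simp at hab
    rcases hab with h | h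
    · exact hu0 h
    · exact hv0 h
  have hb' : (b : ℝ) ≠ 0 := by exact_mod_cast hb
  have h6 : Real.sqrt 3 = ((2 * a + b : ℤ) : ℝ) / (b : ℤ) := by
    rw [eq_div_iff hb']; push_cast; linarith
  have hirr : Irrational (Real.sqrt 3) := by
    have := Nat.Prime.irrational_sqrt (p := 3) Nat.prime_three
    exact_mod_cast this
  apply hirr
  refine ⟨((2 * a + b : ℤ) : ℚ) / (b : ℤ), ?_⟩
  rw [h6]
  push_cast
  rfl

/-- The angles `0` and `π / 4`. -/
noncomputable def ang : Fin 2 → AddCircle (2 * Real.pi) := ![0, ((Real.pi / 4 : ℝ) : AddCircle _)]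

lemma ang_zero : ((ang 0).toCircle : ℂ) = 1 := by
  simp [ang]

lemma ang_one : ((ang 1).toCircle : ℂ) = Complex.exp ((Real.pi / 4 : ℝ) * I) := by
  have h : ang 1 = ((Real.pi / 4 : ℝ) : AddCircle (2 * Real.pi)) := rfl
  rw [h, AddCircle.toCircle_apply_mk, Circle.coe_exp]
  congr 1
  have : (Real.pi : ℂ) ≠ 0 := by exact_mod_cast Real.pi_ne_zero
  push_cast
  field_simp

/-- **Q1.**  The smallest `k ≥ 1` for which some union of `k` rotated and translated copies of `Λ`
is a dense forest is `2`.  More precisely, a union of copies `r_{θ_i}(Λ) + x_i` is a dense forest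
if and only if two of the rotated lattices `r_{θ_i}(Λ)`, `r_{θ_j}(Λ)` have no common direction. -/
theorem result :
    IsLeast {k : ℕ | 1 ≤ k ∧ ∃ (x : Fin k → ℂ) (θ : Fin k → AddCircle (2 * Real.pi)),
      DenseForest (TBG k x θ)} 2 ∧
    ∀ (k : ℕ) (x : Fin k → ℂ) (θ : Fin k → AddCircle (2 * Real.pi)),
      DenseForest (TBG k x θ) ↔ ∃ i j, ∀ u ∈ Lam, ∀ v ∈ Lam, u ≠ 0 → v ≠ 0 →
        ∀ t : ℝ, ((θ i).toCircle : ℂ) * u ≠ t * (((θ j).toCircle : ℂ) * v) := by
  refine ⟨⟨⟨by norm_num, fun _ => 0, ang, ?_⟩, ?_⟩, characterisation⟩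
  · rw [characterisation]
    refine ⟨0, 1, fun u hu v hv hu0 hv0 t => ?_⟩
    rw [ang_zero, ang_one]
    exact no_common_quarter u v hu hv hu0 hv0 t
  · rintro k ⟨hk, x, θ, h⟩
    by_contra hlt
    have hk1 : k = 1 := by omega
    subst hk1
    rw [characterisation] at h
    obtain ⟨i, j, h⟩ := h
    have hij : i = j := Subsingleton.elim _ _
    subst hij
    exact h 1 lam_one 1 lam_one one_ne_zero one_ne_zero 1 (by simp)

end Pool.Agent.Results.MP_b83ca4_nt.SmallestK
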